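import Pool.Agent.Helper446.Star
import Pool.Agent.Helper446.Martin
import Pool.Agent.Helper446.Dense
import Pool.Agent.Helper446.Approx
import Pool.Agent.Helper446.Upper

/-!
Degrees of classes whose quotient lattice is finite and not Boolean.
-/

namespace Pool.Agent.Results.MP_3eaa21_lc.HighDegrees

open Encodable Pool.Agent.Helper446.Defs

/-- `g` dominates every computable function. -/
def Dominant (g : ℕ → ℕ) : Prop :=
  ∀ f : ℕ → ℕ, Computable f → ∃ n0, ∀ n, n0 ≤ n → f n ≤ g n

/-- The set `D` of the problem: the degrees of `Ext(P)` for the `Π⁰₁` classes `P` whose quotient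
lattice `L(P)^*` is finite and not a Boolean algebra. -/
def D : Set TuringDegree :=
  {d | ∃ P : Set (ℕ → Bool), IsPi01 P ∧ FiniteStar P ∧ ¬ BooleanStar P ∧ d = degree (Ext P)}

open Pool.Agent.Helper446 Pool.Agent.Helper446.RE Pool.Agent.Helper446.Tree
  Pool.Agent.Helper446.Oracle Pool.Agent.Helper446.Cls Pool.Agent.Helper446.Thin
  Pool.Agent.Helper446.Deg Pool.Agent.Helper446.Star

theorem upper {P : Set (ℕ → Bool)} (hP : IsPi01 P) (hfin : FiniteStar P)
    (hnb : ¬ BooleanStar P) : ∃ E : Set ℕ, (REPred fun n => n ∈ E) ∧ degree (Ext P) = degree E ∧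
      ∃ g : ℕ → ℕ, TuringReducible (fun n => Part.some (g n)) (chi E) ∧ Dominant g := by
  have hext := ext_compl_re hP
  refine ⟨cod (Ext P)ᶜ, ?_, ?_, ?_⟩
  · refine (RE.ex (p := fun (n : ℕ) (a : List Bool) => a ∈ (Ext P)ᶜ ∧ encode a = n) ?_).of_eq
      fun n => Iff.rfl
    exact RE.and (RE.comp hext (by fun_prop)) (RE.eq (by fun_prop) (by fun_prop))
  · rw [← degree_compl (Ext P)]
    unfold degree
    rw [show (encode '' (cod (Ext P)ᶜ : Set ℕ) : Set ℕ) = encode '' (Ext P)ᶜ from cod_nat _]
  · obtain ⟨S, hS, hinf, hcoh⟩ :=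
      Pool.Agent.Helper446.Upper.exists_cohesive_nodes hP hfin hnb
    have h0 : ComputablePred fun n : ℕ => n ∈ Set.range (encode : List Bool → ℕ) :=
      Primcodable.mem_range_encode.computablePred
    have hco : REPred fun n => n ∉ cod (S ∩ Ext P) := by
      have h1 : REPred fun n : ℕ => (¬ n ∈ Set.range (encode : List Bool → ℕ)) ∨
          ∃ a : List Bool, encode a = n ∧ (a ∉ S ∨ a ∉ Ext P) := by
        refine RE.or h0.not.to_re ?_
        refine RE.ex (p := fun (n : ℕ) (a : List Bool) => encode a = n ∧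
          (a ∉ S ∨ a ∉ Ext P)) ?_
        exact RE.and (RE.eq (by fun_prop) (by fun_prop))
          (RE.or (RE.comp hS.not.to_re (by fun_prop)) (RE.comp hext (by fun_prop)))
      refine h1.of_eq fun n => ?_
      constructor
      · rintro (h2 | ⟨a, rfl, h2⟩)
        · rintro ⟨a, -, rfl⟩
          exact h2 ⟨a, rfl⟩
        · rw [mem_cod]
          exact fun h => h2.elim (fun h3 => h3 h.1) (fun h3 => h3 h.2)
      · intro h2
        by_cases h3 : n ∈ Set.range (encode : List Bool → ℕ)
        · right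
          obtain ⟨a, rfl⟩ := h3
          refine ⟨a, rfl, ?_⟩
          rw [mem_cod] at h2
          by_cases h4 : a ∈ S
          · right; exact fun h5 => h2 ⟨h4, h5⟩
          · left; exact h4
        · left; exact h3
    have hcoh' : ∀ W : Set ℕ, REPred (· ∈ W) →
        (cod (S ∩ Ext P) ∩ W).Finite ∨ (cod (S ∩ Ext P) \ W).Finite := by
      intro W hW
      rcases hcoh {σ | encode σ ∈ W} (RE.comp hW (by fun_prop)) with h | h
      · left
        refine (h.image encode).subset ?_
        rintro _ ⟨⟨a, ha, rfl⟩, h2⟩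
        exact ⟨a, ⟨ha, h2⟩, rfl⟩
      · right
        refine (h.image encode).subset ?_
        rintro _ ⟨⟨a, ha, rfl⟩, h2⟩
        exact ⟨a, ⟨ha, h2⟩, rfl⟩
    have hre : REIn (cod (Ext P)ᶜ) fun n => n ∈ cod (S ∩ Ext P) := by
      refine rein_mem_cod ?_
      refine REIn.and (REIn.of_re hS.to_re) ?_
      exact (rein_cod_not (S := (Ext P)ᶜ)).of_eq fun a => by simp
    obtain ⟨g, hg1, hg2⟩ := Pool.Agent.Helper446.Dense.exists_dominating (cod (Ext P)ᶜ)
      (cod (S ∩ Ext P)) (hinf.image encode_injective.injOn) hco hcoh' hre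
    exact ⟨g, turingReducible_fun_iff.2 hg1, hg2⟩

theorem lower {E : Set ℕ} (hE : REPred fun n => n ∈ E) {g : ℕ → ℕ}
    (hg : TuringReducible (fun n => Part.some (g n)) (chi E)) (hdom : Dominant g) :
    ∃ P : Set (ℕ → Bool), IsPi01 P ∧ FiniteStar P ∧ ¬ BooleanStar P ∧
      degree E = degree (Ext P) := by
  obtain ⟨H, hH, hmono, hle, hlim, hdom', St, hSt, hSt1, hSt2⟩ :=
    Pool.Agent.Helper446.Approx.exists_approx E hE g (turingReducible_fun_iff.1 hg) hdom
  obtain ⟨C, hCinf, hCre, hcoh, R, hR, hCR⟩ :=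
    Pool.Agent.Helper446.Martin.exists_cohesive H hH hmono hle hlim hdom' St hSt1 hSt2
  have hCE : REIn E fun j => j ∈ C := by
    have h1 : REIn E fun y : ℕ => ∃ l : List (ℕ × ℕ), (∀ p ∈ l, St p.1 p.2) ∧ R y l := by
      refine REIn.ex (S := fun (y : ℕ) (l : List (ℕ × ℕ)) =>
        (∀ p ∈ l, St p.1 p.2) ∧ R y l) ?_
      refine REIn.and ?_ (REIn.of_re hR)
      refine REIn.all_mem (S := fun (_ : ℕ × List (ℕ × ℕ)) (p : ℕ × ℕ) => St p.1 p.2)
        (l := fun x => x.2) ?_ (by fun_prop)
      exact hSt.comp (f := fun x : (ℕ × List (ℕ × ℕ)) × (ℕ × ℕ) => x.2) (by fun_prop)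
    exact h1.of_eq fun y => (hCR y).symm
  obtain ⟨q, hq, hEq⟩ := re_iff.1 hE
  obtain ⟨d0, hz0⟩ := exists_data (F_comp hq) (fun r hr => F_pos q hr)
  obtain ⟨d1, hz1⟩ := exists_data (f := id) Computable.id (fun r hr => hr)
  have hid : ∀ j, Tr id j := fun j r hr => hr
  have hC : ∀ j ∈ C, Tr id j := fun j _ => hid j
  set P0 := cls d0 (F_injective q) ∅ with hP0
  set P1 := cls d1 Function.injective_id C with hP1
  have hPi0 : IsPi01 P0 := isPi01_empty d0 (F_injective q) (F_comp hq) hz0
  have hPi1 : IsPi01 P1 := isPi01_cls d1 Function.injective_id hC Computable.id hz1 hCre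
  have hPi : IsPi01 (dsum P0 P1) := isPi01_dsum hPi0 hPi1
  refine ⟨dsum P0 P1, hPi, ?_, ?_, ?_⟩
  · exact finiteStar_dsum (finiteStar_empty d0 (F_injective q) (F_comp hq) hz0)
      (finiteStar_cls d1 Function.injective_id hC hCre Computable.id hz1 hcoh)
  · exact not_booleanStar_dsum
      (not_booleanStar_cls d1 Function.injective_id hC Computable.id hz1 hcoh hCinf)
  · refine degree_eq ?_ ?_ ?_ ?_
    · exact REIn.of_re hE
    · refine compl_rein hq hEq ?_
      have h1 : REIn (cod (Ext (dsum P0 P1))) fun s : ℕ => s = 0 ∨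
          (0 < s ∧ false :: seg (d0.z s) (2 * s + 1) ∈ Ext (dsum P0 P1)) := by
        refine REIn.or (REIn.of_re (RE.eq (by fun_prop) (by fun_prop)))
          (REIn.and (REIn.of_re (RE.lt (by fun_prop) (by fun_prop))) ?_)
        have h2 : Computable fun s : ℕ => seg (d0.z s) (2 * s + 1) :=
          zseg_comp hz0 (by fun_prop) (by fun_prop)
        exact rein_cod.comp (f := fun s : ℕ => false :: seg (d0.z s) (2 * s + 1)) (by fun_prop)
      refine h1.of_eq fun s => ?_
      rw [cons_mem_ext_false]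
      constructor
      · rintro (rfl | ⟨h2, h3⟩)
        · exact fun r hr => F_pos q hr
        · exact (tr_iff d0 (F_injective q) (C := ∅) (by simp) h2).2 h3
      · intro h2
        rcases Nat.eq_zero_or_pos s with h3 | h3
        · left; exact h3
        · right; exact ⟨h3, (tr_iff d0 (F_injective q) (C := ∅) (by simp) h3).1 h2⟩
    · rw [cod_nat]
      refine ext_dsum_rein ?_ ?_
      · exact ext_rein d0 (F_injective q) (tr_rein hq hEq) hz0
          ((REIn.of_re (RE.const False)).of_eq fun j => by simp)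
      · exact ext_rein d1 Function.injective_id
          ((REIn.of_re (RE.const True)).of_eq fun j => by simp [hid j]) hz1 hCE
    · exact REIn.of_re (ext_compl_re hPi)

/-- The degrees in `D` are exactly the degrees of c.e. sets that compute a function dominating
all computable functions. -/
theorem result : D = {d : TuringDegree | ∃ E : Set ℕ, (REPred fun n => n ∈ E) ∧ d = degree E ∧
    ∃ g : ℕ → ℕ, TuringReducible (fun n => Part.some (g n)) (chi E) ∧ Dominant g} := by
  ext d
  constructor
  · rintro ⟨P, hP, hfin, hnb, rfl⟩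
    exact upper hP hfin hnb
  · rintro ⟨E, hE, rfl, g, hg, hdom⟩
    exact lower hE hg hdom

end Pool.Agent.Results.MP_3eaa21_lc.HighDegrees
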